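import Pool.Agent.H70.TGS.Targets

/-!
Row AFF of the board tgs_modules: the history depends on `x` modulo `2^t`.
-/

set_option autoImplicit false

open List Pool.Agent.H68.TG Pool.Agent.H70.TGS

namespace Pool.Agent.H33.TGS

theorem t3_add (c : Bool) (a b : ℕ) : t3 c (a + b) = t3 c a + 3 ^ (cond c 1 0) * b := by
  unfold t3
  cases c
  · rw [if_neg (by decide), if_neg (by decide)]
    simp
  · rw [if_pos rfl, if_pos rfl]
    simp only [cond_true, pow_one]
    ring

theorem hf_add (s : Bool) (x b : ℕ) : hf s (x + 2 * b) = hf s x + b := by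
  unfold hf
  cases s
  · rw [if_neg (by decide), if_neg (by decide)]
    omega
  · rw [if_pos rfl, if_pos rfl]
    omega

theorem bodd_add_two_mul (x b : ℕ) : (x + 2 * b).bodd = x.bodd := by
  rw [Nat.bodd_add, Nat.bodd_mul]
  simp

theorem nx_add (s : Bool) (x b : ℕ) (B : List (Bool × ℕ)) : ∃ A : ℕ, ∀ i : ℕ,
    nx (s, x + 2 * (b * i), B) = ((nx (s, x, B)).1, (nx (s, x, B)).2.1 + b * (3 ^ A * i),
      (nx (s, x, B)).2.2) := by
  refine ⟨cond (s2 x.bodd s B) 1 0, fun i => ?_⟩
  unfold nx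
  simp only [bodd_add_two_mul, hf_add, t3_add, Prod.mk.injEq, true_and, and_true]
  ring

theorem pf_AFF : T_AFF := by
  intro t
  induction t with
  | zero =>
    intro s x B
    exact ⟨0, fun i => by simp⟩
  | succ t ih =>
    intro s x B
    obtain ⟨e, he⟩ := nx_add s x (2 ^ t) B
    obtain ⟨A, hA⟩ := ih (nx (s, x, B)).1 (nx (s, x, B)).2.1 (nx (s, x, B)).2.2
    refine ⟨A + e, fun i => ?_⟩
    rw [Function.iterate_succ_apply, Function.iterate_succ_apply]
    have h1 : 2 ^ (t + 1) * i = 2 * (2 ^ t * i) := by ring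
    rw [h1, he i, hA (3 ^ e * i)]
    have h2 : 3 ^ A * (3 ^ e * i) = 3 ^ (A + e) * i := by ring
    rw [h2]

end Pool.Agent.H33.TGS
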