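import Pool.Agent.H70.TGS.Targets

/-!
Row CHN of the board tgs_modules: a chain of odd steps of the `3x+1` map.
-/

set_option autoImplicit false

open List Pool.Agent.H68.TG Pool.Agent.H70.TGS

namespace Pool.Agent.H33.TGS

theorem csum_succ (e : ℕ → ℕ) (l : ℕ) :
    csum e (l + 1) = 3 ^ l * 2 ^ e 0 + csum (fun m => e (m + 1)) l := by
  unfold csum
  rw [Finset.sum_range_succ', add_comm]
  congr 1
  refine Finset.sum_congr rfl fun m _ => ?_
  congr 2
  omega

theorem front (e : ℕ → ℕ) (l y : ℕ) : 3 ^ (l + 1) * y + csum e (l + 1) =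
    3 ^ l * (3 * y + 2 ^ e 0) + csum (fun m => e (m + 1)) l := by
  rw [csum_succ]
  ring

theorem peel {a y : ℕ} (h : 2 ^ (a + 1) ∣ 3 * y + 2 ^ a) : ∃ o, Odd o ∧ y = 2 ^ a * o := by
  have h1 : 2 ^ a ∣ 3 * y + 2 ^ a := (pow_dvd_pow 2 (Nat.le_succ a)).trans h
  have h2 : 2 ^ a ∣ 3 * y := (Nat.dvd_add_left (dvd_refl _)).1 h1
  have h3 : 2 ^ a ∣ y := (Nat.Coprime.pow_left a (by norm_num)).dvd_of_dvd_mul_left h2
  obtain ⟨o, rfl⟩ := h3
  refine ⟨o, ?_, rfl⟩
  have h4 : 3 * (2 ^ a * o) + 2 ^ a = 2 ^ a * (3 * o + 1) := by ring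
  rw [h4, pow_succ] at h
  have h5 : 2 ∣ 3 * o + 1 := Nat.dvd_of_mul_dvd_mul_left (by positivity) h
  rw [Nat.odd_iff]
  omega

theorem shift {e : ℕ → ℕ} (he : StrictMono e) : StrictMono fun m => e (m + 1) :=
  fun a b h => he (by omega)

theorem dvd_chain : ∀ (l : ℕ) (e : ℕ → ℕ) (E z y : ℕ), StrictMono e → (∀ m < l + 1, e m < E) →
    3 ^ (l + 1) * y + csum e (l + 1) = 2 ^ E * z → ∃ o, Odd o ∧ y = 2 ^ e 0 * o := by
  intro l
  induction l with
  | zero =>
    intro e E z y he hE h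
    rw [front] at h
    have h1 : csum (fun m => e (m + 1)) 0 = 0 := rfl
    rw [h1, pow_zero, one_mul, add_zero] at h
    apply peel
    rw [h]
    exact dvd_mul_of_dvd_left (pow_dvd_pow 2 (hE 0 (by omega))) z
  | succ l ih =>
    intro e E z y he hE h
    rw [front] at h
    obtain ⟨o, -, ho⟩ := ih (fun m => e (m + 1)) E z _ (shift he)
      (fun m hm => hE (m + 1) (by omega)) h
    apply peel
    rw [ho]
    have h1 : e 0 + 1 ≤ e (0 + 1) := he (by omega)
    exact dvd_mul_of_dvd_left (pow_dvd_pow 2 h1) o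

theorem pf_CHN (hRCB : T_RCB) : T_CHN := by
  obtain ⟨-, r2, r3, -⟩ := hRCB
  intro e l
  induction l generalizing e with
  | zero =>
    intro E z y _ _ h hz
    have h1 : csum e 0 = 0 := rfl
    rw [h1, pow_zero, one_mul, add_zero] at h
    rw [h]
    exact (r3 E z).2 hz
  | succ l ih =>
    intro E z y he hE h hz
    obtain ⟨o, ho, rfl⟩ := dvd_chain l e E z y he hE h
    rw [front] at h
    have h1 := ih (fun m => e (m + 1)) E z _ (shift he) (fun m hm => hE (m + 1) (by omega)) h hz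
    have h2 : 3 * (2 ^ e 0 * o) + 2 ^ e 0 = 2 ^ e 0 * (3 * o + 1) := by ring
    rw [h2, r3, r2 o ho] at h1
    exact (r3 _ _).2 h1

end Pool.Agent.H33.TGS
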