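import Pool.Agent.H70.TGS.Targets

/-!
Row CNA of the board tgs_modules: counting.
-/

set_option autoImplicit false

open List Pool.Agent.H68.TG Pool.Agent.H70.TGS

namespace Pool.Agent.H33.TGS

theorem pf_CNA (hRAG : T_RAG) : T_CNA := by
  intro F a q n0 P ρ Q hP hQ hF
  obtain ⟨c, hc, J0, hJ0⟩ := hRAG ρ Q hQ
  have hP0 : (0 : ℝ) < P := by exact_mod_cast hP
  obtain ⟨D, hD⟩ : ∃ D : ℝ, D = (2 * (P : ℝ)) ^ (1 / 6 : ℝ) / c := ⟨_, rfl⟩
  have h1 : Filter.Tendsto (fun N : ℕ => (N : ℝ) ^ (1 / 42 : ℝ)) Filter.atTop Filter.atTop :=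
    (tendsto_rpow_atTop (by norm_num)).comp tendsto_natCast_atTop_atTop
  obtain ⟨N1, hN1⟩ := Filter.eventually_atTop.1 (h1.eventually_ge_atTop D)
  refine ⟨max (max N1 1) (max (2 * n0 + 2 * P) (n0 + P * J0)), ?_⟩
  intro N hN
  have hN1' : N1 ≤ N := ((le_max_left _ _).trans (le_max_left _ _)).trans hN
  have hN2 : 1 ≤ N := ((le_max_right _ _).trans (le_max_left _ _)).trans hN
  have hN3 : 2 * n0 + 2 * P ≤ N := ((le_max_left _ _).trans (le_max_right _ _)).trans hN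
  have hN4 : n0 + P * J0 ≤ N := ((le_max_right _ _).trans (le_max_right _ _)).trans hN
  obtain ⟨J, hJ⟩ : ∃ J, J = (N - n0) / P := ⟨_, rfl⟩
  have hJP : P * J ≤ N - n0 := by
    rw [hJ]
    exact Nat.mul_div_le _ _
  have hJP2 : N - n0 < P * (J + 1) := by
    rw [hJ]
    exact Nat.lt_mul_div_succ _ (by omega)
  have hJ0' : J0 ≤ J := by
    rw [hJ]
    rw [Nat.le_div_iff_mul_le (by omega), mul_comm]
    omega
  have hJN : N ≤ 2 * (P * J) := by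
    rw [mul_add, mul_one] at hJP2
    omega
  have hJr : (N : ℝ) / (2 * P) ≤ J := by
    rw [div_le_iff₀ (by positivity)]
    have : (N : ℝ) ≤ ((2 * (P * J) : ℕ) : ℝ) := by exact_mod_cast hJN
    push_cast at this
    linarith
  have hcard : {j : ℕ | j < J ∧ Reach (ρ + Q * j)}.ncard ≤
      {n : ℕ | n < N ∧ n ≡ a [MOD q] ∧ F n}.ncard := by
    refine Set.ncard_le_ncard_of_injOn (fun j => n0 + P * j) ?_ ?_
      ((Set.finite_lt_nat N).subset fun n hn => hn.1)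
    · rintro j ⟨hj, hr⟩
      refine ⟨?_, (hF j).1, (hF j).2 hr⟩
      have h2 : P * (j + 1) ≤ P * J := Nat.mul_le_mul_left P hj
      rw [mul_add, mul_one] at h2
      show n0 + P * j < N
      omega
    · intro j _ j' _ h
      have h2 : P * j = P * j' := by
        have : n0 + P * j = n0 + P * j' := h
        omega
      exact Nat.eq_of_mul_eq_mul_left (by omega) h2
  have hNr : (0 : ℝ) < N := by exact_mod_cast hN2
  have h2 := hJ0 J hJ0'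
  have h3 : (N : ℝ) ^ (1 / 7 : ℝ) ≤ c * (J : ℝ) ^ (1 / 6 : ℝ) := by
    have h4 : (N : ℝ) ^ (1 / 6 : ℝ) = (N : ℝ) ^ (1 / 7 : ℝ) * (N : ℝ) ^ (1 / 42 : ℝ) := by
      rw [← Real.rpow_add hNr]
      norm_num
    have h5 : (N : ℝ) ^ (1 / 6 : ℝ) / (2 * (P : ℝ)) ^ (1 / 6 : ℝ) ≤ (J : ℝ) ^ (1 / 6 : ℝ) := by
      rw [← Real.div_rpow hNr.le (by positivity)]
      exact Real.rpow_le_rpow (by positivity) hJr (by norm_num)
    have h6 := hN1 N hN1'
    have h7 : 0 < (2 * (P : ℝ)) ^ (1 / 6 : ℝ) := by positivity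
    have h8 : (2 * (P : ℝ)) ^ (1 / 6 : ℝ) ≤ c * (N : ℝ) ^ (1 / 42 : ℝ) := by
      rw [hD, div_le_iff₀ hc] at h6
      linarith
    have h9 : 0 < (N : ℝ) ^ (1 / 7 : ℝ) := by positivity
    calc (N : ℝ) ^ (1 / 7 : ℝ) ≤ c * ((N : ℝ) ^ (1 / 6 : ℝ) / (2 * (P : ℝ)) ^ (1 / 6 : ℝ)) := by
          rw [← mul_div_assoc, le_div_iff₀ h7, h4]
          calc (N : ℝ) ^ (1 / 7 : ℝ) * (2 * (P : ℝ)) ^ (1 / 6 : ℝ)
              ≤ (N : ℝ) ^ (1 / 7 : ℝ) * (c * (N : ℝ) ^ (1 / 42 : ℝ)) :=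
                mul_le_mul_of_nonneg_left h8 h9.le
            _ = c * ((N : ℝ) ^ (1 / 7 : ℝ) * (N : ℝ) ^ (1 / 42 : ℝ)) := by ring
      _ ≤ c * (J : ℝ) ^ (1 / 6 : ℝ) := mul_le_mul_of_nonneg_left h5 hc.le
  refine h3.trans (h2.trans ?_)
  exact_mod_cast hcard

end Pool.Agent.H33.TGS
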