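import Pool.Agent.H70.TGS.Targets

/-!
Row KIC of the board tgs_modules: the other blocks of `0` can be killed in a class modulo `2^α`.
-/

set_option autoImplicit false

open List Pool.Agent.H68.TG Pool.Agent.H70.TGS

namespace Pool.Agent.H33.TGS

theorem pf_KIC (hAFF : T_AFF) (hKIL : T_KIL) : T_KIC := by
  intro s B α x
  obtain ⟨A, hA⟩ := hAFF α s x B
  obtain ⟨n, i, h⟩ := hKIL (3 ^ A) (nx^[α] (s, x, B)).2.1 (nx^[α] (s, x, B)).1
    (nx^[α] (s, x, B)).2.2 (Odd.pow (by decide))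
  refine ⟨n + α, i, by omega, ?_⟩
  rw [Function.iterate_add_apply, hA i, add_comm (nx^[α] (s, x, B)).2.1]
  exact h

end Pool.Agent.H33.TGS
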