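import Pool.Agent.H70.TGS.Targets

/-!
Row KIL of the board tgs_modules: the other blocks of `0` can be killed.
-/

set_option autoImplicit false

open List Pool.Agent.H68.TG Pool.Agent.H70.TGS

namespace Pool.Agent.H33.TGS

theorem pf_KIL (hCNT : T_CNT) (hMAB : T_MAB) (hMAJ : T_MAJ) : T_KIL := by
  intro m r s B hm
  obtain ⟨P, hP⟩ : ∃ P : ℝ, P = max (ph false B) 1 := ⟨_, rfl⟩
  have hP1 : ph false B ≤ P := by rw [hP]; exact le_max_left _ _
  have hP2 : 1 ≤ P := by rw [hP]; exact le_max_right _ _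
  have hP0 : 0 < P := by linarith
  obtain ⟨n, hn⟩ := exists_pow_lt_of_lt_one (show (0 : ℝ) < 1 / P by positivity)
    (show (399 / 400 : ℝ) < 1 by norm_num)
  refine ⟨n, ?_⟩
  by_contra hcon
  have hcon' : ∀ i : ℕ, 1 ≤ ph false (nx^[n] (s, m * i + r, B)).2.2 := fun i =>
    not_lt.1 fun h => hcon ⟨i, h⟩
  have h1 := hCNT (fun z => ph false z.2.2) n m r s B ((m : ℝ) * 2 ^ n + r) hm
  have h2 := hMAB n (s, (m : ℝ) * 2 ^ n + r, B)
  have h3 : (2 : ℝ) ^ n ≤ ∑ i ∈ Finset.range (2 ^ n),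
      ph false (drive n (s, m * i + r, B) ((m : ℝ) * 2 ^ n + r)).2.2 := by
    have h4 : ∑ _i ∈ Finset.range (2 ^ n), (1 : ℝ) = 2 ^ n := by
      rw [Finset.sum_const, Finset.card_range, nsmul_eq_mul, mul_one]
      push_cast
      ring
    refine h4.symm.le.trans (Finset.sum_le_sum fun i hi => ?_)
    rw [Finset.mem_range] at hi
    have h5 : (((s, m * i + r, B) : Bool × ℕ × List (Bool × ℕ)).2.1 : ℝ) ≤
        (m : ℝ) * 2 ^ n + r := by
      have h6 : (i : ℝ) ≤ 2 ^ n := by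
        have : (i : ℝ) ≤ ((2 ^ n : ℕ) : ℝ) := by exact_mod_cast hi.le
        rwa [Nat.cast_pow, Nat.cast_ofNat] at this
      have h7 : (m : ℝ) * i ≤ m * 2 ^ n := mul_le_mul_of_nonneg_left h6 (Nat.cast_nonneg _)
      push_cast
      linarith
    rw [(hMAJ n (s, m * i + r, B) _ h5).2.1]
    exact hcon' i
  have h4 : (399 / 200 : ℝ) ^ n = 2 ^ n * (399 / 400) ^ n := by
    rw [← mul_pow]
    norm_num
  have h5 : (399 / 200 : ℝ) ^ n * ph false B < 2 ^ n := by
    calc (399 / 200 : ℝ) ^ n * ph false B ≤ (399 / 200 : ℝ) ^ n * P :=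
          mul_le_mul_of_nonneg_left hP1 (by positivity)
      _ = 2 ^ n * ((399 / 400) ^ n * P) := by rw [h4]; ring
      _ < 2 ^ n * (1 / P * P) := by
          refine mul_lt_mul_of_pos_left ?_ (by positivity)
          exact mul_lt_mul_of_pos_right hn hP0
      _ = 2 ^ n := by field_simp
  linarith

end Pool.Agent.H33.TGS
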