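import Pool.Agent.H70.TGS.Targets

/-!
Row LFT of the board tgs_modules: powers of `1 + 3^g u` modulo powers of `3`.
-/

set_option autoImplicit false

open List Pool.Agent.H68.TG Pool.Agent.H70.TGS

namespace Pool.Agent.H33.TGS

theorem lift_pow (g u : ℕ) (hg : 1 ≤ g) (hu : ¬ 3 ∣ u) (j : ℕ) :
    ∃ v : ℕ, ¬ 3 ∣ v ∧ (1 + 3 ^ g * u) ^ 3 ^ j = 1 + 3 ^ (g + j) * v := by
  induction j with
  | zero => exact ⟨u, hu, by rw [pow_zero, pow_one, add_zero]⟩
  | succ j ih =>
    obtain ⟨v, hv, h⟩ := ih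
    obtain ⟨J, hJ⟩ : ∃ J, g + j = J + 1 := ⟨g + j - 1, by omega⟩
    refine ⟨v + 3 * (3 ^ J * v ^ 2 + 3 ^ (2 * J) * v ^ 3), ?_, ?_⟩
    · intro hd
      exact hv ((Nat.dvd_add_left (dvd_mul_right _ _)).1 hd)
    · rw [pow_succ, pow_mul, h, ← add_assoc, hJ, pow_succ, pow_succ (3 : ℕ) (J + 1),
        pow_succ (3 : ℕ) J, two_mul, pow_add]
      ring

theorem pf_LFT : T_LFT := by
  intro g u A J hg hu hA
  obtain ⟨h, hh⟩ : ∃ h : ℤ, h = 1 + 3 ^ g * u := ⟨_, rfl⟩
  have main : ∀ j : ℕ, ∃ t : ℕ, (3 : ℤ) ^ (g + j) ∣ (A : ℤ) - h ^ t := by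
    intro j
    induction j with
    | zero =>
      refine ⟨0, ?_⟩
      have h1 := (Nat.modEq_iff_dvd.1 hA.symm)
      push_cast at h1
      rw [pow_zero, add_zero]
      exact h1
    | succ j ih =>
      obtain ⟨t, c, hc⟩ := ih
      obtain ⟨v, hv, hv2⟩ := lift_pow g u hg hu j
      have hK : h ^ 3 ^ j = 1 + 3 ^ (g + j) * (v : ℤ) := by
        rw [hh]
        exact_mod_cast hv2
      obtain ⟨G, hG⟩ : ∃ G, g = G + 1 := ⟨g - 1, by omega⟩
      have hm : ∃ m : ℤ, h ^ t = 1 + 3 * m := by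
        have h1 : (3 : ℤ) ∣ h ^ t - 1 := by
          have h2 : h - 1 ∣ h ^ t - 1 := by
            have := sub_dvd_pow_sub_pow h 1 t
            rwa [one_pow] at this
          refine dvd_trans ?_ h2
          rw [hh, hG, pow_succ]
          exact ⟨3 ^ G * u, by ring⟩
        obtain ⟨m, hm⟩ := h1
        exact ⟨m, by linarith⟩
      obtain ⟨m, hm⟩ := hm
      have hv3 : (v : ℤ) % 3 ≠ 0 := by
        intro h0
        apply hv
        omega
      have hv4 : (v : ℤ) % 3 = 1 ∨ (v : ℤ) % 3 = 2 := by omega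
      have hc4 : c % 3 = 0 ∨ c % 3 = 1 ∨ c % 3 = 2 := by omega
      have hcase : c % 3 = 0 ∨ (c - v) % 3 = 0 ∨ (c - 2 * v) % 3 = 0 := by
        rcases hv4 with h1 | h1 <;> rcases hc4 with h2 | h2 | h2
        · left; exact h2
        · right; left; omega
        · right; right; omega
        · left; exact h2
        · right; right; omega
        · right; left; omega
      have h3 : (3 : ℤ) ^ (g + j) = 3 * 3 ^ (G + j) := by
        rw [hG, show G + 1 + j = G + j + 1 by ring, pow_succ]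
        ring
      rw [← add_assoc, pow_succ]
      rcases hcase with h0 | h0 | h0
      · refine ⟨t, ?_⟩
        rw [hc]
        exact mul_dvd_mul_left _ (Int.dvd_of_emod_eq_zero h0)
      · refine ⟨t + 3 ^ j, ?_⟩
        have h4 : (A : ℤ) - h ^ (t + 3 ^ j) = 3 ^ (g + j) * (c - (1 + 3 * m) * v) := by
          rw [pow_add, hK, hm]
          rw [hm] at hc
          linear_combination hc
        rw [h4]
        refine mul_dvd_mul_left _ ?_
        have h5 : c - (1 + 3 * m) * v = (c - v) + 3 * (-(m * v)) := by ring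
        rw [h5]
        exact dvd_add (Int.dvd_of_emod_eq_zero h0) (dvd_mul_right _ _)
      · refine ⟨t + 2 * 3 ^ j, ?_⟩
        have h4 : (A : ℤ) - h ^ (t + 2 * 3 ^ j) =
            3 ^ (g + j) * (c - (1 + 3 * m) * (v * (2 + 3 ^ (g + j) * v))) := by
          rw [pow_add, mul_comm 2, pow_mul, hK, hm]
          rw [hm] at hc
          linear_combination hc
        rw [h4]
        refine mul_dvd_mul_left _ ?_
        have h5 : c - (1 + 3 * m) * (v * (2 + 3 ^ (g + j) * v)) = (c - 2 * v) +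
            3 * (-(2 * m * v) - (1 + 3 * m) * (v * 3 ^ (G + j) * v)) := by
          rw [h3]
          ring
        rw [h5]
        exact dvd_add (Int.dvd_of_emod_eq_zero h0) (dvd_mul_right _ _)
  obtain ⟨t, ht⟩ := main J
  refine ⟨t, ?_⟩
  rw [Nat.modEq_iff_dvd]
  push_cast
  rw [hh] at ht
  exact (pow_dvd_pow 3 (by omega)).trans ht

end Pool.Agent.H33.TGS
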