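import Pool.Agent.H70.TGS.Targets

/-!
Row NSF of the board tgs_modules: words on which the computation never stops.
-/

set_option autoImplicit false

open List Pool.Agent.H68.TG Pool.Agent.H70.TGS

namespace Pool.Agent.H33.TGS

theorem emb_append (a b : List Bool) : emb (a ++ b) = emb a ++ emb b := by
  induction a with
  | nil => rfl
  | cons c a ih =>
    cases c
    · show 0 :: emb (a ++ b) = 0 :: (emb a ++ emb b)
      rw [ih]
    · show 1 :: 2 :: emb (a ++ b) = 1 :: 2 :: (emb a ++ emb b)
      rw [ih]

theorem emb_rep (n : ℕ) : emb (replicate n false) = replicate n 0 := by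
  induction n with
  | zero => rfl
  | succ n ih =>
    rw [replicate_succ, replicate_succ]
    show 0 :: emb (replicate n false) = 0 :: replicate n 0
    rw [ih]

theorem tape_cfg (x : ℕ) : tape (cfg (false, x, [(true, 1), (false, 6)])) =
    replicate x 0 ++ [1, 2] ++ replicate 6 0 := by
  show emb (replicate x false ++ flat [(true, 1), (false, 6)]) = _
  rw [emb_append, emb_rep, append_assoc]
  rfl

theorem emb_length (w : List Bool) : w.length ≤ (emb w).length := by
  induction w with
  | nil => exact le_rfl
  | cons c w ih =>
    cases c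
    · show w.length + 1 ≤ (emb w).length + 1
      omega
    · show w.length + 1 ≤ (emb w).length + 1 + 1
      omega

theorem tape_length (q : Bool × List Bool) : q.2.length ≤ (tape q).length + 1 := by
  have h := emb_length q.2
  unfold tape
  rw [length_drop]
  cases q.1
  · simp only [cond_false]
    omega
  · simp only [cond_true]
    omega

/-- the output of a word has at least half of its length -/
theorem tr_length (w : List Bool) : ∀ s : Bool, w.length ≤ 2 * (tr s w).length + 1 ∧
    (s = false → w.length ≤ 2 * (tr s w).length) := by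
  induction w with
  | nil => intro s; exact ⟨Nat.zero_le _, fun _ => Nat.zero_le _⟩
  | cons c w ih =>
    intro s
    cases c <;> cases s
    · have h := (ih true).1
      have h1 : tr false (false :: w) = true :: tr true w := rfl
      rw [h1, length_cons, length_cons]
      exact ⟨by omega, fun _ => by omega⟩
    · have h := (ih false).2 rfl
      have h1 : tr true (false :: w) = tr false w := rfl
      rw [h1, length_cons]
      exact ⟨by omega, fun h => by simp at h⟩
    · have h := (ih false).2 rfl
      have h1 : tr false (true :: w) = false :: tr false w := rfl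
      rw [h1, length_cons, length_cons]
      exact ⟨by omega, fun _ => by omega⟩
    · have h := (ih true).1
      have h1 : tr true (true :: w) = false :: false :: false :: tr true w := rfl
      rw [h1, length_cons, length_cons, length_cons, length_cons]
      exact ⟨by omega, fun h => by simp at h⟩

theorem chain (x : ℕ) :
    nx (false, 8 * x + 4, [(true, 1), (false, 6)]) = (true, 4 * x + 2, [(true, 1), (false, 9)]) ∧
    nx (true, 4 * x + 2, [(true, 1), (false, 9)]) = (true, 2 * x + 1, [(true, 2), (false, 12)]) ∧
    nx (true, 2 * x + 1, [(true, 2), (false, 12)]) = (false, x, [(true, 1), (false, 6)]) := by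
  have b1 : (8 * x + 4).bodd = false := by
    have : 8 * x + 4 = 2 * (4 * x + 2) := by ring
    rw [this, Nat.bodd_mul]
    rfl
  have b2 : (4 * x + 2).bodd = false := by
    have : 4 * x + 2 = 2 * (2 * x + 1) := by ring
    rw [this, Nat.bodd_mul]
    rfl
  have b3 : (2 * x + 1).bodd = true := by
    rw [Nat.bodd_add, Nat.bodd_mul]
    rfl
  refine ⟨?_, ?_, ?_⟩
  · unfold nx s1 s2
    rw [b1]
    have h1 : hf false (8 * x + 4) = 4 * x + 2 := by
      unfold hf
      rw [if_neg (by decide)]
      omega
    rw [h1]
    simp [dbl, pa, t3, hf, Nat.bodd]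
  · unfold nx s1 s2
    rw [b2]
    have h1 : hf true (4 * x + 2) = 2 * x + 1 := by
      unfold hf
      rw [if_pos rfl]
      omega
    rw [h1]
    simp [dbl, pa, t3, hf, Nat.bodd]
  · unfold nx s1 s2
    rw [b3]
    have h1 : hf true (2 * x + 1) = x := by
      unfold hf
      rw [if_pos rfl]
      omega
    rw [h1]
    simp [dbl, pa, t3, hf, Nat.bodd]

theorem cfg_length (s : Bool) (x a b : ℕ) :
    (cfg (s, x, [(true, a), (false, b)])).2.length = x + (a + b) := by
  show (replicate x false ++ (replicate a true ++ (replicate b false ++ []))).length = _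
  simp

theorem long (s : Bool) (x a b : ℕ) (h : 7 ≤ a + b) :
    2 ≤ (tape (cfg (s, x, [(true, a), (false, b)]))).length ∧
    2 ≤ (tape (pass (cfg (s, x, [(true, a), (false, b)])))).length := by
  have h1 := cfg_length s x a b
  have h2 := tape_length (cfg (s, x, [(true, a), (false, b)]))
  have h3 := tape_length (pass (cfg (s, x, [(true, a), (false, b)])))
  have h4 : (pass (cfg (s, x, [(true, a), (false, b)]))).2 =
    tr (cfg (s, x, [(true, a), (false, b)])).1 (cfg (s, x, [(true, a), (false, b)])).2 := rfl
  have h5 := (tr_length (cfg (s, x, [(true, a), (false, b)])).2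
    (cfg (s, x, [(true, a), (false, b)])).1).1
  rw [h4] at h3
  omega

theorem stops_down (hDBL : T_DBL) (hHLT : T_HLT) (x : ℕ)
    (h : Stops (tape (cfg (false, 8 * x + 4, [(true, 1), (false, 6)])))) :
    Stops (tape (cfg (false, x, [(true, 1), (false, 6)]))) := by
  obtain ⟨c1, c2, c3⟩ := chain x
  rw [hHLT] at h ⊢
  obtain ⟨k, hk⟩ := h
  have d1 := hDBL (false, 8 * x + 4, [(true, 1), (false, 6)])
  have d2 := hDBL (true, 4 * x + 2, [(true, 1), (false, 9)])
  have d3 := hDBL (true, 2 * x + 1, [(true, 2), (false, 12)])
  rw [c1] at d1
  rw [c2] at d2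
  rw [c3] at d3
  have l1 := long false (8 * x + 4) 1 6 (by norm_num)
  have l2 := long true (4 * x + 2) 1 9 (by norm_num)
  have l3 := long true (2 * x + 1) 2 12 (by norm_num)
  by_cases hk6 : 6 ≤ k
  · obtain ⟨j, rfl⟩ : ∃ j, k = j + 1 + 1 + 1 + 1 + 1 + 1 := ⟨k - 6, by omega⟩
    refine ⟨j, ?_⟩
    rw [Function.iterate_succ_apply, Function.iterate_succ_apply, Function.iterate_succ_apply,
      Function.iterate_succ_apply, Function.iterate_succ_apply, Function.iterate_succ_apply,
      d1, d2, d3] at hk
    exact hk
  · exfalso
    have hk' : k = 0 ∨ k = 1 ∨ k = 2 ∨ k = 3 ∨ k = 4 ∨ k = 5 := by omega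
    rcases hk' with rfl | rfl | rfl | rfl | rfl | rfl
    · have := l1.1
      rw [Function.iterate_zero_apply] at hk
      omega
    · have := l1.2
      rw [Function.iterate_one] at hk
      omega
    · have := l2.1
      rw [Function.iterate_succ_apply, Function.iterate_succ_apply, Function.iterate_zero_apply,
        d1] at hk
      omega
    · have := l2.2
      rw [Function.iterate_succ_apply, Function.iterate_succ_apply, Function.iterate_succ_apply,
        Function.iterate_zero_apply, d1] at hk
      omega
    · have := l3.1
      rw [Function.iterate_succ_apply, Function.iterate_succ_apply, Function.iterate_succ_apply,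
        Function.iterate_succ_apply, Function.iterate_zero_apply, d1, d2] at hk
      omega
    · have := l3.2
      rw [Function.iterate_succ_apply, Function.iterate_succ_apply, Function.iterate_succ_apply,
        Function.iterate_succ_apply, Function.iterate_succ_apply, Function.iterate_zero_apply,
        d1, d2] at hk
      omega

theorem base : ¬ Stops (replicate 5 0 ++ [1, 2] ++ replicate 6 0) := by
  rintro ⟨n, hn⟩
  have hper : step^[40] (replicate 5 0 ++ [1, 2] ++ replicate 6 0) =
      replicate 5 0 ++ [1, 2] ++ replicate 6 0 := by decide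
  have hlen : ∀ n < 40,
      2 ≤ (step^[n] (replicate 5 0 ++ [1, 2] ++ replicate 6 0)).length := by decide
  have hall : ∀ n, 2 ≤ (step^[n] (replicate 5 0 ++ [1, 2] ++ replicate 6 0)).length := by
    intro n
    induction n using Nat.strong_induction_on with
    | _ n ih =>
      by_cases h : n < 40
      · exact hlen n h
      · obtain ⟨j, rfl⟩ : ∃ j, n = j + 40 := ⟨n - 40, by omega⟩
        rw [Function.iterate_add_apply, hper]
        exact ih j (by omega)
  have := hall n
  omega

theorem pf_NSF (hDBL : T_DBL) (hHLT : T_HLT) : T_NSF := by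
  intro k
  induction k with
  | zero =>
    intro x hx
    have : x = 5 := by omega
    subst this
    exact base
  | succ k ih =>
    intro x hx hs
    rw [pow_succ] at hx
    have h2 : 1 ≤ 8 ^ k := Nat.one_le_pow _ _ (by norm_num)
    obtain ⟨m, hm⟩ : ∃ m, m = 8 ^ k := ⟨_, rfl⟩
    rw [← hm] at hx h2 ih
    obtain ⟨x', rfl⟩ : ∃ x', x = 8 * x' + 4 := ⟨(x - 4) / 8, by omega⟩
    rw [← tape_cfg] at hs
    have h3 := stops_down hDBL hHLT x' hs
    rw [tape_cfg] at h3
    exact ih x' (by omega) h3

end Pool.Agent.H33.TGS
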