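import Pool.Agent.H70.TGS.Targets

/-!
Row PR2 of the board tgs_modules: `2` is a primitive root modulo the powers of `3`.
-/

set_option autoImplicit false

open List Pool.Agent.H68.TG Pool.Agent.H70.TGS

namespace Pool.Agent.H33.TGS

theorem pr_aux (hLFT : T_LFT) (κ A g : ℕ) (hκ : ¬ 3 ∣ κ) (h : A ≡ κ [MOD 3]) (hg : 1 ≤ g) :
    ∃ t, 4 ^ t * κ ≡ A [MOD 3 ^ g] := by
  have hco : Nat.Coprime κ (3 ^ g) := by
    refine Nat.Coprime.pow_right g ?_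
    exact ((Nat.prime_three.coprime_iff_not_dvd).2 hκ).symm
  have h1 : 1 < 3 ^ g := Nat.one_lt_pow (by omega) (by norm_num)
  obtain ⟨b, -, hb⟩ := Nat.exists_mul_mod_eq_one_of_coprime hco h1
  have hb1 : κ * b ≡ 1 [MOD 3 ^ g] := by
    unfold Nat.ModEq
    rw [hb, Nat.mod_eq_of_lt h1]
  have hb3 : κ * b ≡ 1 [MOD 3] := hb1.of_dvd (dvd_pow_self 3 (by omega))
  have hA : A * b ≡ 1 [MOD 3 ^ 1] := by
    rw [pow_one]
    exact (h.mul_right b).trans hb3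
  obtain ⟨t, ht⟩ := hLFT 1 1 (A * b) g le_rfl (by norm_num) hA
  refine ⟨t, ?_⟩
  have h4 : (1 + 3 ^ 1 * 1 : ℕ) = 4 := by norm_num
  rw [h4] at ht
  refine (ht.mul_right κ).trans ?_
  have h5 : A * b * κ = A * (κ * b) := by ring
  rw [h5]
  have h6 := hb1.mul_left A
  rwa [mul_one] at h6

theorem pf_PR2 (hLFT : T_LFT) : T_PR2 := by
  intro κ A g hκ hA
  rcases Nat.eq_zero_or_pos g with rfl | hg
  · exact ⟨0, by rw [pow_zero]; exact Nat.modEq_one⟩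
  by_cases h : A ≡ κ [MOD 3]
  · obtain ⟨t, ht⟩ := pr_aux hLFT κ A g hκ h hg
    refine ⟨2 * t, ?_⟩
    rw [pow_mul]
    exact ht
  · have h2 : A ≡ 2 * κ [MOD 3] := by
      unfold Nat.ModEq at h ⊢
      have h3 : κ % 3 = 1 ∨ κ % 3 = 2 := by omega
      have h4 : A % 3 = 1 ∨ A % 3 = 2 := by omega
      rcases h3 with h3 | h3 <;> rcases h4 with h4 | h4 <;> omega
    obtain ⟨t, ht⟩ := pr_aux hLFT (2 * κ) A g (by omega) h2 hg
    refine ⟨2 * t + 1, ?_⟩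
    rw [pow_succ, pow_mul, mul_assoc]
    exact ht

end Pool.Agent.H33.TGS
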