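import Pool.Agent.H70.TGS.Targets

/-!
Row RCB of the board tgs_modules: basic rules for the `3x+1` map.
-/

set_option autoImplicit false

open List Pool.Agent.H68.TG Pool.Agent.H70.TGS

namespace Pool.Agent.H33.TGS

theorem reach_T (x : ℕ) : Reach (T x) ↔ Reach x := by
  constructor
  · rintro ⟨k, hk⟩
    exact ⟨k + 1, by rw [Function.iterate_succ_apply]; exact hk⟩
  · rintro ⟨k, hk⟩
    cases k with
    | zero =>
      rw [Function.iterate_zero_apply] at hk
      have : x = 0 ∨ x = 1 := by omega
      rcases this with rfl | rfl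
      · exact ⟨0, by decide⟩
      · exact ⟨1, by decide⟩
    | succ k =>
      rw [Function.iterate_succ_apply] at hk
      exact ⟨k, hk⟩

theorem T_even (w : ℕ) : T (2 * w) = w := by
  unfold T
  rw [if_pos (by omega)]
  omega

theorem T_odd (o : ℕ) (ho : Odd o) : T (3 * o + 1) = T o := by
  obtain ⟨m, rfl⟩ := ho
  unfold T
  rw [if_pos (by omega), if_neg (by omega)]

theorem pf_RCB : T_RCB := by
  have h1 : ∀ w, Reach (2 * w) ↔ Reach w := by
    intro w
    rw [← reach_T (2 * w), T_even]
  refine ⟨h1, ?_, ?_, ?_⟩
  · intro o ho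
    rw [← reach_T (3 * o + 1), T_odd o ho, reach_T]
  · intro e w
    induction e with
    | zero => rw [pow_zero, one_mul]
    | succ e ih =>
      have h2 : 2 ^ (e + 1) * w = 2 * (2 ^ e * w) := by ring
      rw [h2, h1, ih]
  · intro α x
    induction α with
    | zero => exact fun h => h
    | succ α ih =>
      intro h
      rw [Function.iterate_succ_apply', reach_T] at h
      exact ih h

end Pool.Agent.H33.TGS
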