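import Pool.Agent.H70.TGS.Targets

/-!
Row VA3 of the board tgs_modules: the form of the powers of `2` with even exponent.
-/

set_option autoImplicit false

open List Pool.Agent.H68.TG Pool.Agent.H70.TGS

namespace Pool.Agent.H33.TGS

theorem pf_VA3 : T_VA3 := by
  intro f hf hev
  obtain ⟨k, rfl⟩ := hev
  have h1 : 2 ^ (k + k) = 4 ^ k := by
    rw [← two_mul, pow_mul]
    norm_num
  have hk : 1 ≤ k := by omega
  have h2 : 4 ≤ 4 ^ k := by
    calc 4 = 4 ^ 1 := by norm_num
      _ ≤ 4 ^ k := Nat.pow_le_pow_right (by norm_num) hk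
  have h3 : 4 ^ k % 3 = 1 := by
    rw [Nat.pow_mod]
    norm_num
  obtain ⟨g, u, hu, h⟩ := Nat.exists_eq_pow_mul_and_not_dvd (n := 4 ^ k - 1) (by omega) 3
    (by norm_num)
  refine ⟨g, u, ?_, hu, ?_⟩
  · rcases Nat.eq_zero_or_pos g with h0 | h0
    · exfalso
      rw [h0, pow_zero, one_mul] at h
      apply hu
      rw [← h]
      omega
    · exact h0
  · rw [h1, ← h]
    omega

end Pool.Agent.H33.TGS
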